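import Pool.Agent.Work.MP_510402_an.Assembly
import Pool.Agent.Work.MP_510402_an_98.CONV
import Pool.Agent.Work.MP_510402_an_98.SUMC
import Pool.Agent.Work.MP_510402_an_98.SUMQ
import Pool.Agent.Work.MP_510402_an_helper48.APF
import Pool.Agent.Work.MP_510402_an_helper48.EMB
import Pool.Agent.Work.MP_510402_an_helper58.Beta
import Pool.Agent.Work.MP_510402_an_helper58.Log
import Pool.Agent.Work.MP_510402_an_helper58.Rate
import Pool.Agent.Work.MP_510402_an_helper58.XComplete
import Pool.Agent.Work.MP_510402_an_helper58.XInt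
import Pool.Agent.Work.MP_510402_an_helper59.FASM
import Pool.Agent.Work.MP_510402_an_helper59.GRAM
import Pool.Agent.Work.MP_510402_an_helper76.FIELD
import Pool.Agent.Work.MP_510402_an_helper76.LEVEL
import Pool.Agent.Work.MP_510402_an_helper89.CARA
import Pool.Agent.Work.MP_510402_an_helper89.NORM

set_option autoImplicit false

namespace Pool.HAP

theorem all_Frames : Stmt_Frames :=
  stmt_Frames (stmt_LEVEL stmt_Field stmt_SumQ stmt_SumC stmt_AddIso)

theorem all_Norm : Stmt_Norm := stmt_Norm stmt_Conv stmt_Sum2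

theorem all_APF : Stmt_APF := stmt_APF stmt_Tel stmt_Frk

end Pool.HAP
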