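import Pool.Agent.Work.MP_510402_an.Interface

set_option autoImplicit false

namespace Pool.HAP

open scoped BigOperators InnerProductSpace

theorem pair_apply_inl {Fr : Frames} {j : ℕ} (a : Eu (Fr.N j)) (b : Eu (Fr.N (j + 1)))
    (i : Fin (Fr.N j)) : pair a b (Sum.inl i) = a i := rfl

theorem pair_apply_inr {Fr : Frames} {j : ℕ} (a : Eu (Fr.N j)) (b : Eu (Fr.N (j + 1)))
    (i : Fin (Fr.N (j + 1))) : pair a b (Sum.inr i) = b i := rfl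

theorem norm_pair_sq {Fr : Frames} {j : ℕ} (a : Eu (Fr.N j)) (b : Eu (Fr.N (j + 1))) :
    ‖pair a b‖ ^ 2 = ‖a‖ ^ 2 + ‖b‖ ^ 2 := by
  rw [EuclideanSpace.norm_sq_eq, EuclideanSpace.norm_sq_eq, EuclideanSpace.norm_sq_eq,
    Fintype.sum_sum_type]
  rfl

theorem exists_SData (hFr : Stmt_Frames) (hN : Stmt_Norm) (hB : Stmt_Beta) : Nonempty SData := by
  obtain ⟨Fr⟩ := hFr
  obtain ⟨β, hβ⟩ := hB
  have h : ∀ j, ∃ p : Seminorm ℝ (EuclideanSpace ℝ (Ix Fr j)),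
      GoodNorm (phi Fr j) (2 ^ j) (β j) p := by
    intro j
    refine hN (Ix Fr j) (Fr.Lc j) (phi Fr j) (2 ^ j) (β j) (Fr.L_pos j) ?_ (hβ j).1 (hβ j).2.1
    intro l
    rw [phi, norm_pair_sq, norm_neg, Fr.norm_y, Fr.norm_z]
    norm_num
  choose p hp using h
  exact ⟨{ Fr := Fr, β := β, β_one := fun j => (hβ j).1, β_pow := fun j => (hβ j).2.2.1,
           β_bd := fun j => (hβ j).2.2.2, p := p, good := hp }⟩

theorem main (hFr : Stmt_Frames) (hN : Stmt_Norm) (hB : Stmt_Beta) (hE : Stmt_Euc)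
    (hC : Stmt_XComplete) (hX : Stmt_XInt) (hEm : Stmt_Emb) (hA : Stmt_APF) (hL : Stmt_Log) :
    ¬ (∀ (X : Type) [NormedAddCommGroup X] [NormedSpace ℝ X] [CompleteSpace X],
      (∀ ε : ℝ, 0 < ε → ∃ N : ℕ, ∀ n : ℕ, N ≤ n →
        ∀ E : Submodule ℝ X, Module.finrank ℝ E = n →
          ∃ T : E →ₗ[ℝ] EuclideanSpace ℝ (Fin n),
            ∀ x : E, ‖x‖ ≤ ‖T x‖ ∧ ‖T x‖ ≤ ε * Real.log (n : ℝ) * ‖x‖) →
      ∀ (Z : Type) [NormedAddCommGroup Z] [NormedSpace ℝ Z] [CompleteSpace Z],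
        ∀ (_ι : Z →ₗᵢ[ℝ] X),
        ∀ K : Set Z, IsCompact K → ∀ δ : ℝ, 0 < δ →
          ∃ T : Z →L[ℝ] Z, FiniteDimensional ℝ (LinearMap.range (T : Z →ₗ[ℝ] Z)) ∧
            ∀ x ∈ K, ‖T x - x‖ < δ) := by
  intro hall
  obtain ⟨S⟩ := exists_SData hFr hN hB
  have : CompleteSpace S.X := hC S
  obtain ⟨Z, hZc, io, pr, h1, h2, h3, h4, h5⟩ := hEm S
  have : CompleteSpace Z := hZc.completeSpace_coe
  refine hA Z S.Fr io pr h1 h2 h3 h4 h5 ?_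
  refine hall S.X ?_ Z Z.subtypeₗᵢ
  intro ε hε
  obtain ⟨N, hNn⟩ := hL ε hε
  refine ⟨N, fun n hn E hEn => ?_⟩
  obtain ⟨hn1, hn2, hn3⟩ := hNn n hn
  set r : ℕ := Nat.log 2 n + 1 with hr
  have hD0 : (0 : ℝ) ≤ 1 + (r : ℝ) := by positivity
  have hD : (1 : ℝ) ≤ Real.sqrt (1 + (r : ℝ)) := by
    rw [Real.one_le_sqrt]
    have : (0 : ℝ) ≤ r := Nat.cast_nonneg r
    linarith
  obtain ⟨T, hT⟩ := hE E n hn1 hEn (Real.sqrt (1 + (r : ℝ))) hD (by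
    intro a b A hAc hHS y
    have h := hX S r a b A hAc (hHS.trans hn2) (fun j => ((y j : E) : S.X))
    rw [Real.sq_sqrt hD0]
    have e1 : ∀ i, ‖∑ j, A i j • y j‖ = ‖∑ j, A i j • ((y j : E) : S.X)‖ := by
      intro i
      have e0 : ((∑ j, A i j • y j : E) : S.X) = ∑ j, A i j • ((y j : E) : S.X) := by
        rw [AddSubmonoidClass.coe_finsetSum]
        rfl
      rw [← e0]
      rfl
    have e2 : ∀ j, ‖y j‖ = ‖((y j : E) : S.X)‖ := fun j => rfl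
    simp only [e1, e2]
    exact h)
  refine ⟨T, fun x => ⟨(hT x).1, (hT x).2.trans ?_⟩⟩
  exact mul_le_mul_of_nonneg_right hn3 (norm_nonneg x)

end Pool.HAP
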