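import Mathlib

/-!
# MP_510402_an : interface

A Banach space `X` with `d_n(X) = O(sqrt (log n))` and a subspace without the approximation
property.  See BLUEPRINT.md for the paper proof.
-/

set_option autoImplicit false

namespace Pool.HAP

open scoped BigOperators InnerProductSpace

/-- Euclidean space of dimension `n`. -/
abbrev Eu (n : ℕ) := EuclideanSpace ℝ (Fin n)

/-- Contractions of Euclidean spaces, as matrices. -/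
def Contr {a b : ℕ} (A : Matrix (Fin a) (Fin b) ℝ) : Prop :=
  ∀ w : Fin b → ℝ, ∑ i, (∑ j, A i j * w j) ^ 2 ≤ ∑ j, (w j) ^ 2

/-- Square of the Hilbert-Schmidt norm. -/
def HS {a b : ℕ} (A : Matrix (Fin a) (Fin b) ℝ) : ℝ := ∑ i, ∑ j, (A i j) ^ 2

/-! ## Characters -/

/-- A nontrivial additive character with values `1, -1`. -/
structure IsChar (F : Type) [Field F] (ψ : F → ℝ) : Prop where
  val : ∀ x, ψ x = 1 ∨ ψ x = -1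
  mul : ∀ x y, ψ (x + y) = ψ x * ψ y
  nontriv : ∃ x, ψ x = -1

/-- Block FIELD. -/
def Stmt_Field : Prop := ∀ κ : ℕ, 1 ≤ κ →
  ∃ (F : Type) (_ : Field F) (_ : Fintype F) (_ : DecidableEq F),
    Fintype.card F = 2 ^ κ ∧ (∀ x : F, x + x = 0) ∧ ∃ ψ : F → ℝ, IsChar F ψ

/-- Block SUMQ: quadratic sums. -/
def Stmt_SumQ : Prop := ∀ (F : Type) [Field F] [Fintype F] (ψ : F → ℝ), IsChar F ψ →
  ∀ a b c α β γ : F, (a ≠ 0 ∨ b ≠ 0 ∨ c ≠ 0 ∨ α ≠ 0 ∨ β ≠ 0 ∨ γ ≠ 0) →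
    |∑ x, ∑ y, ∑ z, ψ (a * x + b * y + c * z + α * (x * y) + β * (y * z) + γ * (z * x))|
      ≤ (Fintype.card F : ℝ) ^ 2

/-- Block SUMC: cubic sums twisted by an arbitrary additive character of `F^3`. -/
def Stmt_SumC : Prop := ∀ (F : Type) [Field F] [Fintype F] (ψ : F → ℝ), IsChar F ψ →
  ∀ lam : F × F × F → ℝ, (∀ v, lam v = 1 ∨ lam v = -1) → (∀ v w, lam (v + w) = lam v * lam w) →
  ∀ a b c α β γ : F,
    |∑ x, ∑ y, ∑ z, ψ (a * x + b * y + c * z + α * (x * y) + β * (y * z) + γ * (z * x)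
        + x * y * z) * lam (x, y, z)|
      ≤ 2 * (Fintype.card F : ℝ) ^ 2

/-- Block ADDISO: elementary abelian 2-groups of the same finite order are isomorphic. -/
def Stmt_AddIso : Prop := ∀ (G G' : Type) [AddCommGroup G] [AddCommGroup G'] [Fintype G]
  [Fintype G'], (∀ x : G, x + x = 0) → (∀ x : G', x + x = 0) →
  Fintype.card G = Fintype.card G' → Nonempty (G ≃+ G')

/-! ## Levels and frames -/

/-- `n j = q_j ^ 3` with `q_j = 2 ^ (2 ^ (j+2))`; note `n (j+1) = (n j)^2`. -/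
def nn (j : ℕ) : ℕ := 2 ^ (3 * 2 ^ (j + 2))

/-- `q_j = 2 ^ (2 ^ (j+2))`. -/
def qq (j : ℕ) : ℕ := 2 ^ (2 ^ (j + 2))

/-- Level data: sign matrices `h j` of order `nn (j+1)`, a set of `nn j` rows (the image of `g j`)
with small coherence, and twists `ep j`. -/
structure Levels where
  h : ∀ j, Fin (nn (j + 1)) → Fin (nn (j + 1)) → ℝ
  g : ∀ j, Fin (nn j) → Fin (nn (j + 1))
  ep : ∀ j, Fin (nn j) → ℝ
  h_val : ∀ j a l, h j a l = 1 ∨ h j a l = -1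
  ep_val : ∀ j v, ep j v = 1 ∨ ep j v = -1
  g_inj : ∀ j, Function.Injective (g j)
  rows : ∀ j a a', ∑ l, h j a l * h j a' l = if a = a' then (nn (j + 1) : ℝ) else 0
  cols : ∀ j i l, ∑ a, h j a i * h j a l = if i = l then (nn (j + 1) : ℝ) else 0
  coh : ∀ j i l, i ≠ l → |∑ v, h j (g j v) i * h j (g j v) l| ≤ (qq j : ℝ) ^ 2
  cross : ∀ j (i : Fin (nn (j + 2))) (l : Fin (nn (j + 1))),
    |∑ v : Fin (nn (j + 1)), h (j + 1) (g (j + 1) v) i * ep (j + 1) v * h j v l|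
      ≤ 2 * (qq (j + 1) : ℝ) ^ 2

/-- Block LEVEL (uses FIELD, SUMQ, SUMC, ADDISO). -/
def Stmt_Level : Prop := Nonempty Levels

/-- Frames: unit vectors `y j l ∈ H_j`, `z j l ∈ H_{j+1}`. -/
structure Frames where
  N : ℕ → ℕ
  Lc : ℕ → ℕ
  y : ∀ j, Fin (Lc j) → Eu (N j)
  z : ∀ j, Fin (Lc j) → Eu (N (j + 1))
  N_ge : ∀ j, 2 ^ (2 ^ j) ≤ N j
  L_pos : ∀ j, 1 ≤ Lc j
  norm_y : ∀ j l, ‖y j l‖ = 1
  norm_z : ∀ j l, ‖z j l‖ = 1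
  yy : ∀ j a a', ∑ l, y j l a * y j l a' = if a = a' then (Lc j : ℝ) / (N j : ℝ) else 0
  zz : ∀ j b b', ∑ l, z j l b * z j l b' = if b = b' then (Lc j : ℝ) / (N (j + 1) : ℝ) else 0
  yz : ∀ j a b, ∑ l, y j l a * z j l b = 0
  coh : ∀ j i l, (2 : ℝ) ^ (2 ^ j) * |⟪y j i, y j l⟫_ℝ - ⟪z j i, z j l⟫_ℝ| ≤ 1
  cross : ∀ j i l, (2 : ℝ) ^ (2 ^ (j + 1)) * |⟪y (j + 1) i, z j l⟫_ℝ| ≤ 1

/-- Block FASM (uses LEVEL). -/
def Stmt_Frames : Prop := Nonempty Frames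

/-! ## The interpolation norm -/

/-- The properties of the norm on `H_j ⊕ H_{j+1}`; `φ l` are the functionals, `m` the number of
scales, `β` the weight. -/
structure GoodNorm {ι : Type} [Fintype ι] {L : ℕ} (φ : Fin L → EuclideanSpace ℝ ι) (m : ℕ)
    (β : ℝ) (p : Seminorm ℝ (EuclideanSpace ℝ ι)) : Prop where
  lower : ∀ x, ‖x‖ ≤ p x
  upper : ∀ x, p x ^ 2 ≤ β ^ (m + 1) * ‖x‖ ^ 2
  small : ∀ x, ‖x‖ ^ 2 ≤ 2 → (∀ l, (2 : ℝ) ^ m * |⟪φ l, x⟫_ℝ| ≤ 1) → p x ≤ 2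
  func : ∀ l x, ⟪φ l, x⟫_ℝ ^ 2 * β ^ (m + 1) ≤ 3 * p x ^ 2
  interp : ∀ (r a b : ℕ) (A : Matrix (Fin a) (Fin b) ℝ), Contr A → HS A ≤ 4 ^ r →
    ∀ y : Fin b → EuclideanSpace ℝ ι,
      ∑ i, p (∑ j, A i j • y j) ^ 2 ≤ β ^ (min r (m + 1)) * ∑ j, p (y j) ^ 2

/-- Block NORM. -/
def Stmt_Norm : Prop := ∀ (ι : Type) [Fintype ι] (L : ℕ) (φ : Fin L → EuclideanSpace ℝ ι)
  (m : ℕ) (β : ℝ), 1 ≤ L → (∀ l, ‖φ l‖ ^ 2 ≤ 2) → 1 ≤ β → β ≤ 2 →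
    ∃ p : Seminorm ℝ (EuclideanSpace ℝ ι), GoodNorm φ m β p

/-- Block CONV: infimal convolution of the Euclidean norm and a seminorm `q`. -/
def Stmt_Conv : Prop := ∀ (ι : Type) [Fintype ι] (q : Seminorm ℝ (EuclideanSpace ℝ ι)),
  ∃ K : Seminorm ℝ (EuclideanSpace ℝ ι), (∀ x v, K x ^ 2 ≤ ‖x - v‖ ^ 2 + q v ^ 2) ∧
    ∀ x, ∀ ε : ℝ, 0 < ε → ∃ v, ‖x - v‖ ^ 2 + q v ^ 2 ≤ K x ^ 2 + ε

/-- Block SUM2: quadratic sums of seminorms. -/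
def Stmt_Sum2 : Prop := ∀ (V : Type) [AddCommGroup V] [Module ℝ V] (n : ℕ)
  (K : Fin n → Seminorm ℝ V) (w : Fin n → ℝ), (∀ i, 0 ≤ w i) →
  ∃ p : Seminorm ℝ V, ∀ x, p x ^ 2 = ∑ i, w i * K i x ^ 2

/-- Block BETA: the weights. -/
def Stmt_Beta : Prop := ∃ β : ℕ → ℝ, ∀ j, 1 ≤ β j ∧ β j ≤ 2 ∧ β j ^ (2 ^ j + 1) = 2 ^ j ∧
  ∀ k : ℕ, k ≤ 2 ^ j + 1 → β j ^ k ≤ 1 + k

/-! ## The Euclidean norm lemma (Kwapien, Lindenstrauss-Pelczynski) -/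

/-- Block GRAM: equal Gram operators differ by a contraction. -/
def Stmt_Gram : Prop := ∀ (n a b : ℕ) (X : Matrix (Fin n) (Fin a) ℝ)
  (Y : Matrix (Fin n) (Fin b) ℝ), X * X.transpose = Y * Y.transpose →
  ∃ A : Matrix (Fin a) (Fin b) ℝ, Contr A ∧ HS A ≤ b ∧ ∀ i k, X k i = ∑ j, A i j * Y k j

/-- Block CARA: Caratheodory with exactly `n ^ 2 + 1` terms. -/
def Stmt_Cara : Prop := ∀ (n : ℕ) (U : Set (Matrix (Fin n) (Fin n) ℝ))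
  (M : Matrix (Fin n) (Fin n) ℝ), M ∈ convexHull ℝ U →
  ∃ (w : Fin (n ^ 2 + 1) → ℝ) (V : Fin (n ^ 2 + 1) → Matrix (Fin n) (Fin n) ℝ),
    (∀ i, 0 ≤ w i) ∧ ∑ i, w i = 1 ∧ (∀ i, V i ∈ U) ∧ ∑ i, w i • V i = M

/-- Block EUC (uses GRAM, CARA). -/
def Stmt_Euc : Prop := ∀ (E : Type) [NormedAddCommGroup E] [NormedSpace ℝ E] (n : ℕ), 1 ≤ n →
  Module.finrank ℝ E = n → ∀ D : ℝ, 1 ≤ D →
  (∀ (a b : ℕ) (A : Matrix (Fin a) (Fin b) ℝ), Contr A → HS A ≤ (n : ℝ) ^ 2 + 1 →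
    ∀ y : Fin b → E, ∑ i, ‖∑ j, A i j • y j‖ ^ 2 ≤ D ^ 2 * ∑ j, ‖y j‖ ^ 2) →
  ∃ T : E →ₗ[ℝ] EuclideanSpace ℝ (Fin n), ∀ x, ‖x‖ ≤ ‖T x‖ ∧ ‖T x‖ ≤ 2 * D * ‖x‖

/-! ## The spaces -/

/-- `EuclideanSpace ℝ ι` with the norm `p`. -/
def NS {ι : Type} [Fintype ι] (p : Seminorm ℝ (EuclideanSpace ℝ ι)) (_hp : ∀ x, ‖x‖ ≤ p x) :
    Type := EuclideanSpace ℝ ι

section NS

variable {ι : Type} [Fintype ι] (p : Seminorm ℝ (EuclideanSpace ℝ ι)) (hp : ∀ x, ‖x‖ ≤ p x)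

/-- The identity map, as a type cast. -/
def NS.of (x : EuclideanSpace ℝ ι) : NS p hp := x

/-- The identity map, as a type cast. -/
def NS.un (x : NS p hp) : EuclideanSpace ℝ ι := x

noncomputable instance : AddCommGroup (NS p hp) := inferInstanceAs (AddCommGroup (EuclideanSpace ℝ ι))

noncomputable instance : Module ℝ (NS p hp) := inferInstanceAs (Module ℝ (EuclideanSpace ℝ ι))

noncomputable instance : Norm (NS p hp) := ⟨fun x => p (NS.un p hp x)⟩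

theorem NS.norm_def (x : NS p hp) : ‖x‖ = p (NS.un p hp x) := rfl

theorem NS.core : NormedSpace.Core ℝ (NS p hp) where
  norm_nonneg x := apply_nonneg p _
  norm_smul c x := map_smul_eq_mul p c _
  norm_triangle x y := map_add_le_add p _ _
  norm_eq_zero_iff x := by
    constructor
    · intro h
      have h1 : ‖NS.un p hp x‖ ≤ 0 := (hp _).trans (le_of_eq h)
      have h2 : NS.un p hp x = 0 := norm_le_zero_iff.mp h1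
      exact h2
    · intro h
      rw [h]
      exact map_zero p

noncomputable instance : NormedAddCommGroup (NS p hp) := NormedAddCommGroup.ofCore (NS.core p hp)

noncomputable instance : NormedSpace ℝ (NS p hp) := NormedSpace.ofCore (NS.core p hp)

end NS

/-- Index set of `H_j ⊕ H_{j+1}`. -/
abbrev Ix (Fr : Frames) (j : ℕ) : Type := Fin (Fr.N j) ⊕ Fin (Fr.N (j + 1))

/-- The vector `(a, b)`. -/
noncomputable def pair {Fr : Frames} {j : ℕ} (a : Eu (Fr.N j)) (b : Eu (Fr.N (j + 1))) :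
    EuclideanSpace ℝ (Ix Fr j) := WithLp.toLp 2 (Sum.elim a.ofLp b.ofLp)

/-- The functionals `φ_l = (y_l, -z_l)`. -/
noncomputable def phi (Fr : Frames) (j : ℕ) (l : Fin (Fr.Lc j)) : EuclideanSpace ℝ (Ix Fr j) :=
  pair (Fr.y j l) (-(Fr.z j l))

/-- Data of the space: frames, weights and norms. -/
structure SData where
  Fr : Frames
  β : ℕ → ℝ
  β_one : ∀ j, 1 ≤ β j
  β_pow : ∀ j, β j ^ (2 ^ j + 1) = 2 ^ j
  β_bd : ∀ j (k : ℕ), k ≤ 2 ^ j + 1 → β j ^ k ≤ 1 + k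
  p : ∀ j, Seminorm ℝ (EuclideanSpace ℝ (Ix Fr j))
  good : ∀ j, GoodNorm (phi Fr j) (2 ^ j) (β j) (p j)

/-- The finite dimensional space `X_j = H_j ⊕ H_{j+1}`. -/
abbrev SData.XJ (S : SData) (j : ℕ) : Type := NS (S.p j) (S.good j).lower

/-- The space `X`. -/
abbrev SData.X (S : SData) : Type := lp (fun j => S.XJ j) 2

/-- Block XCOMP: completeness. -/
def Stmt_XComplete : Prop := ∀ S : SData, CompleteSpace S.X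

/-- Block XINT: the interpolation inequality on `X`. -/
def Stmt_XInt : Prop := ∀ (S : SData) (r a b : ℕ) (A : Matrix (Fin a) (Fin b) ℝ), Contr A →
  HS A ≤ 4 ^ r → ∀ y : Fin b → S.X,
    ∑ i, ‖∑ j, A i j • y j‖ ^ 2 ≤ (1 + (r : ℝ)) * ∑ j, ‖y j‖ ^ 2

/-- Block EMB: the subspace `Z`, with embeddings of `H_j` and projections to `H_j`. -/
def Stmt_Emb : Prop := ∀ S : SData, ∃ Z : Submodule ℝ S.X, IsClosed (Z : Set S.X) ∧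
  ∃ (io : ∀ j, Eu (S.Fr.N j) →ₗ[ℝ] Z) (pr : ∀ j, Z →ₗ[ℝ] Eu (S.Fr.N j)),
    (∀ j a, pr j (io j a) = a) ∧
    (∀ j x, ‖pr j x‖ ≤ ‖x‖) ∧
    (∀ j a, ‖io j a‖ ^ 2 ≤ 2 ^ (j + 1) * ‖a‖ ^ 2) ∧
    (∀ j l, ‖io j (S.Fr.y j l) + io (j + 1) (S.Fr.z j l)‖ ≤ 4) ∧
    (∀ j l x, (⟪S.Fr.y j l, pr j x⟫_ℝ - ⟪S.Fr.z j l, pr (j + 1) x⟫_ℝ) ^ 2 * 2 ^ j ≤ 3 * ‖x‖ ^ 2)

/-! ## Failure of the approximation property -/

/-- The trace of `T` on `H_j`. -/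
noncomputable def trj {Z : Type} [NormedAddCommGroup Z] [NormedSpace ℝ Z] {n : ℕ}
    (io : Eu n →ₗ[ℝ] Z) (pr : Z →ₗ[ℝ] Eu n) (T : Z →ₗ[ℝ] Z) : ℝ :=
  ∑ a, (pr (T (io (EuclideanSpace.single a 1)))) a

/-- Block TEL: the telescoping identity. -/
def Stmt_Tel : Prop := ∀ (Z : Type) [NormedAddCommGroup Z] [NormedSpace ℝ Z] (Fr : Frames)
  (io : ∀ j, Eu (Fr.N j) →ₗ[ℝ] Z) (pr : ∀ j, Z →ₗ[ℝ] Eu (Fr.N j)) (T : Z →ₗ[ℝ] Z) (j : ℕ),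
  (∑ l, (⟪Fr.y j l, pr j (T (io j (Fr.y j l) + io (j + 1) (Fr.z j l)))⟫_ℝ
      - ⟪Fr.z j l, pr (j + 1) (T (io j (Fr.y j l) + io (j + 1) (Fr.z j l)))⟫_ℝ)) / (Fr.Lc j : ℝ)
    = trj (io j) (pr j) T / (Fr.N j : ℝ) - trj (io (j + 1)) (pr (j + 1)) T / (Fr.N (j + 1) : ℝ)

/-- Block FRK: finite rank operators have vanishing normalised traces. -/
def Stmt_Frk : Prop := ∀ (Z : Type) [NormedAddCommGroup Z] [NormedSpace ℝ Z] (Fr : Frames)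
  (io : ∀ j, Eu (Fr.N j) →ₗ[ℝ] Z) (pr : ∀ j, Z →ₗ[ℝ] Eu (Fr.N j)),
  (∀ j x, ‖pr j x‖ ≤ ‖x‖) → (∀ j a, ‖io j a‖ ^ 2 ≤ 2 ^ (j + 1) * ‖a‖ ^ 2) →
  ∀ T : Z →L[ℝ] Z, FiniteDimensional ℝ (LinearMap.range (T : Z →ₗ[ℝ] Z)) →
    Filter.Tendsto (fun j => trj (io j) (pr j) (T : Z →ₗ[ℝ] Z) / (Fr.N j : ℝ)) Filter.atTop
      (nhds 0)

/-- Block APF (uses TEL, FRK). -/
def Stmt_APF : Prop := ∀ (Z : Type) [NormedAddCommGroup Z] [NormedSpace ℝ Z] (Fr : Frames)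
  (io : ∀ j, Eu (Fr.N j) →ₗ[ℝ] Z) (pr : ∀ j, Z →ₗ[ℝ] Eu (Fr.N j)),
  (∀ j a, pr j (io j a) = a) →
  (∀ j x, ‖pr j x‖ ≤ ‖x‖) →
  (∀ j a, ‖io j a‖ ^ 2 ≤ 2 ^ (j + 1) * ‖a‖ ^ 2) →
  (∀ j l, ‖io j (Fr.y j l) + io (j + 1) (Fr.z j l)‖ ≤ 4) →
  (∀ j l x, (⟪Fr.y j l, pr j x⟫_ℝ - ⟪Fr.z j l, pr (j + 1) x⟫_ℝ) ^ 2 * 2 ^ j ≤ 3 * ‖x‖ ^ 2) →
  ¬ (∀ K : Set Z, IsCompact K → ∀ δ : ℝ, 0 < δ →
      ∃ T : Z →L[ℝ] Z, FiniteDimensional ℝ (LinearMap.range (T : Z →ₗ[ℝ] Z)) ∧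
        ∀ x ∈ K, ‖T x - x‖ < δ)

/-- Block LOG: the numerical estimate. -/
def Stmt_Log : Prop := ∀ ε : ℝ, 0 < ε → ∃ N : ℕ, ∀ n : ℕ, N ≤ n →
  1 ≤ n ∧ (n : ℝ) ^ 2 + 1 ≤ 4 ^ (Nat.log 2 n + 1) ∧
    2 * Real.sqrt (1 + ((Nat.log 2 n + 1 : ℕ) : ℝ)) ≤ ε * Real.log n

end Pool.HAP
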